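import Mathlib
import Pool.Agent.helper6.EV.Spec

/-!
# Module ev:I5 (MP_5a4a8e_nt): second differences from a power saving
-/

set_option autoImplicit false

namespace Pool.Agent.EV

open N1f72dd46 Filter MeasureTheory Complex Metric Pool.Agent.helper6.LD

theorem I5_floor (X : ℝ) (hX : 0 ≤ X) : ⌊Real.sqrt ((⌊X ^ 2⌋₊ : ℕ) : ℝ)⌋₊ = ⌊X⌋₊ := by
  set n : ℕ := ⌊X ^ 2⌋₊ with hn
  have h1 : (n : ℝ) ≤ X ^ 2 := Nat.floor_le (by positivity)
  have h2 : ((⌊X⌋₊ : ℕ) : ℝ) ≤ X := Nat.floor_le hX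
  have h3 : X < (⌊X⌋₊ : ℝ) + 1 := Nat.lt_floor_add_one X
  have h4 : ⌊X⌋₊ ^ 2 ≤ n := by
    rw [hn]
    apply Nat.le_floor
    push_cast
    exact pow_le_pow_left₀ (Nat.cast_nonneg _) h2 2
  rw [Nat.floor_eq_iff (Real.sqrt_nonneg _)]
  constructor
  · apply Real.le_sqrt_of_sq_le
    exact_mod_cast h4
  · rw [Real.sqrt_lt' (by positivity)]
    have h5 : X ^ 2 < ((⌊X⌋₊ : ℝ) + 1) ^ 2 := by
      apply pow_lt_pow_left₀ h3 hX (by norm_num)
    linarith

theorem I5_core (hI3 : I3_stmt) (hI4 : I4_stmt) (c : ℝ) (hc0 : 0 < c) (hc1 : c ≤ 1 / 2) (n : ℕ)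
    (x l : ℝ) (hx0 : 0 ≤ x) (hxn : x ^ 2 = n) (hx3 : Real.exp 3 < x)
    (hps : (H n : ℝ) - (n : ℝ) ^ (3 / 2 - c : ℝ) ≤ (G n : ℝ))
    (hh : (n : ℝ) ^ (-(c / 2)) ≤ 1 / 2) (hl0 : 0 ≤ l) (hl1 : l ≤ 1 / 2) :
    2 * pc x - pc (x * Real.exp (-l)) - pc (x * Real.exp l) ≤ 12 * (n : ℝ) ^ (1 / 2 - c / 2 : ℝ) := by
  obtain ⟨hmono, _, hdiff, _, _⟩ := hI4
  have hx1 : 1 < x := lt_trans (by
    have := Real.add_one_lt_exp (x := 3) (by norm_num)
    linarith) hx3
  have hn1 : (1 : ℝ) < n := by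
    rw [← hxn]
    nlinarith
  have hn0 : (0 : ℝ) < n := by linarith
  set h : ℝ := (n : ℝ) ^ (-(c / 2)) with hh_def
  have hh0 : 0 < h := Real.rpow_pos_of_pos hn0 _
  have key := hI3 n x h l hx0 hxn hx3 hh0 hl0 (by linarith)
  -- powers
  have hxr : x = (n : ℝ) ^ (1 / 2 : ℝ) := by
    rw [← Real.sqrt_eq_rpow, ← hxn, Real.sqrt_sq hx0]
  have hxh : x * h = (n : ℝ) ^ (1 / 2 - c / 2 : ℝ) := by
    rw [hxr, hh_def, ← Real.rpow_add hn0]
    ring_nf
  have hp1 : (1 : ℝ) ≤ (n : ℝ) ^ (1 / 2 - c / 2 : ℝ) :=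
    Real.one_le_rpow hn1.le (by linarith)
  have hp2 : (1 : ℝ) ≤ (n : ℝ) ^ (1 / 2 - c : ℝ) :=
    Real.one_le_rpow hn1.le (by linarith)
  have hp3 : (n : ℝ) ^ (3 / 2 - c : ℝ) = n * (n : ℝ) ^ (1 / 2 - c : ℝ) := by
    have : (3 / 2 - c : ℝ) = 1 + (1 / 2 - c) := by ring
    rw [this, Real.rpow_add hn0, Real.rpow_one]
  have hp4 : (n : ℝ) ^ (1 / 2 - c : ℝ) = h * (n : ℝ) ^ (1 / 2 - c / 2 : ℝ) := by
    rw [hh_def, ← Real.rpow_add hn0]
    ring_nf
  set P : ℝ := (n : ℝ) ^ (1 / 2 - c / 2 : ℝ) with hP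
  set Q : ℝ := (n : ℝ) ^ (1 / 2 - c : ℝ) with hQ
  set A : ℝ := pc (x * Real.exp (-h)) - pc (x * Real.exp (-(h + l))) -
    (pc (x * Real.exp (h + l)) - pc x) with hA
  have hA1 : A ≤ 6 * P := by
    have e1 : n * h / 2 * A ≤ 3 * n * Q := by
      have : (H n : ℝ) - G n + n + 1 ≤ 3 * n * Q := by
        have e2 : (n : ℝ) ≤ n * Q := by nlinarith
        have e3 : (H n : ℝ) - G n ≤ n * Q := by
          rw [← hp3]; linarith
        linarith
      linarith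
    have e4 : n * h / 2 * A ≤ n * h / 2 * (6 * P) := by
      have : n * h / 2 * (6 * P) = 3 * n * (h * P) := by ring
      rw [this, ← hp4]
      exact e1
    exact le_of_mul_le_mul_left e4 (by positivity)
  -- the three differences
  have hle : h ≤ 1 / 2 := hh
  have d1 : pc x - pc (x * Real.exp (-h)) ≤ x * h + 1 := by
    have e1 : x * Real.exp (-h) ≤ x := by
      have : Real.exp (-h) ≤ 1 := Real.exp_le_one_iff.mpr (by linarith)
      nlinarith
    have e2 := hdiff (x * Real.exp (-h)) x (by positivity) e1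
    have e3 : 1 - h ≤ Real.exp (-h) := by
      have := Real.add_one_le_exp (-h)
      linarith
    nlinarith
  have d2 : pc (x * Real.exp (-(h + l))) ≤ pc (x * Real.exp (-l)) := by
    apply hmono
    apply mul_le_mul_of_nonneg_left _ hx0
    apply Real.exp_le_exp.mpr
    linarith
  have d3 : pc (x * Real.exp (h + l)) - pc (x * Real.exp l) ≤ 3 * (x * h) + 1 := by
    have e1 : x * Real.exp l ≤ x * Real.exp (h + l) := by
      apply mul_le_mul_of_nonneg_left _ hx0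
      apply Real.exp_le_exp.mpr
      linarith
    have e2 := hdiff (x * Real.exp l) (x * Real.exp (h + l)) (by positivity) e1
    have e3 : Real.exp (h + l) - Real.exp l ≤ 3 * h := by
      have f1 : 1 - h ≤ Real.exp (-h) := by
        have := Real.add_one_le_exp (-h)
        linarith
      have f2 : Real.exp l = Real.exp (h + l) * Real.exp (-h) := by
        rw [← Real.exp_add]
        ring_nf
      have f3 : Real.exp (h + l) ≤ 3 := by
        have g1 : Real.exp (h + l) ≤ Real.exp 1 := Real.exp_le_exp.mpr (by linarith)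
        have g2 := Real.exp_one_lt_d9
        linarith
      have f4 : 0 < Real.exp (h + l) := Real.exp_pos _
      rw [f2]
      nlinarith
    nlinarith
  have tot : 2 * pc x - pc (x * Real.exp (-l)) - pc (x * Real.exp l) =
      A + (pc x - pc (x * Real.exp (-h))) +
      (pc (x * Real.exp (-(h + l))) - pc (x * Real.exp (-l))) +
      (pc (x * Real.exp (h + l)) - pc (x * Real.exp l)) := by
    rw [hA]; ring
  rw [tot]
  rw [hxh] at d1 d3
  linarith

theorem I5 (hI3 : I3_stmt) (hI4 : I4_stmt) : I5_stmt := by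
  rintro ⟨c0, hc0, hev⟩
  set c : ℝ := min c0 (1 / 2) with hc
  have hcp : 0 < c := lt_min hc0 (by norm_num)
  have hc1 : c ≤ 1 / 2 := min_le_right _ _
  have hc2 : c ≤ c0 := min_le_left _ _
  have hmono : Monotone pc := hI4.1
  have ev1 : ∀ᶠ n : ℕ in atTop, (n : ℝ) ^ (-(c / 2)) ≤ 1 / 2 := by
    have t1 : Tendsto (fun n : ℕ => (n : ℝ) ^ (-(c / 2))) atTop (nhds 0) :=
      (tendsto_rpow_neg_atTop (by positivity : 0 < c / 2)).comp tendsto_natCast_atTop_atTop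
    filter_upwards [t1.eventually (gt_mem_nhds (by norm_num : (0 : ℝ) < 1 / 2))] with n hn
    exact le_of_lt hn
  have ev2 : ∀ᶠ n : ℕ in atTop, Real.exp 3 ^ 2 < (n : ℝ) :=
    tendsto_natCast_atTop_atTop.eventually (eventually_gt_atTop _)
  obtain ⟨N, hN⟩ := eventually_atTop.mp (hev.and (ev1.and (ev2.and (eventually_ge_atTop 1))))
  refine ⟨c, 12, (N : ℝ) + 1, hcp, hc1, by norm_num, by
    have : (0 : ℝ) ≤ N := Nat.cast_nonneg _
    linarith, ?_⟩
  intro X l hX hl0 hl1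
  have hN0 : (0 : ℝ) ≤ N := Nat.cast_nonneg _
  have hX1 : 1 ≤ X := by linarith
  have hX0 : 0 ≤ X := by linarith
  set n : ℕ := ⌊X ^ 2⌋₊ with hn
  have hnN : N ≤ n := by
    rw [hn]
    apply Nat.le_floor
    nlinarith
  obtain ⟨hps, hh, h3, hn1⟩ := hN n hnN
  have hn1' : (1 : ℝ) ≤ n := by exact_mod_cast hn1
  have hnX : (n : ℝ) ≤ X ^ 2 := Nat.floor_le (by positivity)
  set x : ℝ := Real.sqrt n with hx
  have hx0 : 0 ≤ x := Real.sqrt_nonneg _
  have hxn : x ^ 2 = n := Real.sq_sqrt (by positivity)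
  have hx3 : Real.exp 3 < x := by
    rw [hx]
    exact Real.lt_sqrt_of_sq_lt h3
  have hxX : x ≤ X := by
    rw [hx]
    calc Real.sqrt n ≤ Real.sqrt (X ^ 2) := Real.sqrt_le_sqrt hnX
      _ = X := Real.sqrt_sq hX0
  have hps' : (H n : ℝ) - (n : ℝ) ^ (3 / 2 - c : ℝ) ≤ (G n : ℝ) := by
    have : (n : ℝ) ^ (3 / 2 - c0 : ℝ) ≤ (n : ℝ) ^ (3 / 2 - c : ℝ) :=
      Real.rpow_le_rpow_of_exponent_le hn1' (by linarith)
    linarith
  have core := I5_core hI3 hI4 c hcp hc1 n x l hx0 hxn hx3 hps' hh hl0 hl1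
  have hpcx : pc X = pc x := by
    unfold pc
    rw [hx, hn, I5_floor X hX0]
  have m1 : pc (x * Real.exp (-l)) ≤ pc (X * Real.exp (-l)) :=
    hmono (mul_le_mul_of_nonneg_right hxX (Real.exp_pos _).le)
  have m2 : pc (x * Real.exp l) ≤ pc (X * Real.exp l) :=
    hmono (mul_le_mul_of_nonneg_right hxX (Real.exp_pos _).le)
  have m3 : (n : ℝ) ^ (1 / 2 - c / 2 : ℝ) ≤ X ^ (1 - c) := by
    calc (n : ℝ) ^ (1 / 2 - c / 2 : ℝ) ≤ (X ^ 2) ^ (1 / 2 - c / 2 : ℝ) :=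
          Real.rpow_le_rpow (by positivity) hnX (by linarith)
      _ = X ^ (1 - c) := by
          rw [← Real.rpow_natCast X 2, ← Real.rpow_mul hX0]
          congr 1
          push_cast
          ring
  rw [hpcx]
  linarith

end Pool.Agent.EV
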